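import Pool.Agent.Y6.S.Conv
import Pool.Agent.Y710.EP.PERT5

/-! Termwise differentiation (project SK, `S_CALC`). -/

set_option autoImplicit false

open Set Filter Topology MeasureTheory

namespace Pool.Agent.Y297.SK

open Pool.Agent.Y5.D Pool.Agent.Y5.E
open Pool.Agent.Y6.N (lin)
open Pool.Agent.Y5.S2 (Sq6 Dis2)
open Pool.Agent.Y6.S
open Pool.Agent.Y710.EP (wsum size L_one)

/-- termwise differentiation of a series -/
theorem series_deriv {ι : Type} {T : ℝ} (f f' : ι → ℝ → ℝ)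
    (hd : ∀ p, ∀ t ∈ Ico 0 T, HasDerivWithinAt (f p) (f' p t) (Ico 0 T) t)
    (hs : ∀ t ∈ Ico 0 T, Summable fun p => f p t)
    (hb : ∀ T' < T, ∃ b : ι → ℝ, Summable b ∧ ∀ p, ∀ t ∈ Icc 0 T', |f' p t| ≤ b p) :
    ∀ t ∈ Ico 0 T, HasDerivWithinAt (fun s => ∑' p, f p s) (∑' p, f' p t) (Ico 0 T) t := by
  intro t ht
  obtain ⟨T', h1, h2⟩ := exists_between ht.2
  obtain ⟨b, hb1, hb2⟩ := hb T' h2
  have hsub : Icc 0 T' ⊆ Ico 0 T := fun x hx => ⟨hx.1, hx.2.trans_lt h2⟩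
  rw [hasDerivWithinAt_iff_tendsto_slope]
  have hev : ∀ᶠ s in 𝓝[Ico 0 T \ {t}] t, s ∈ Icc 0 T' ∧ s ≠ t := by
    have h3 : ∀ᶠ s in 𝓝[Ico 0 T \ {t}] t, s ∈ Ico 0 T \ {t} := self_mem_nhdsWithin
    have h4 : ∀ᶠ s in 𝓝[Ico 0 T \ {t}] t, s < T' := mem_nhdsWithin_of_mem_nhds (Iio_mem_nhds h1)
    filter_upwards [h3, h4] with s hs1 hs2
    exact ⟨⟨hs1.1.1, hs2.le⟩, hs1.2⟩
  have h5 : Tendsto (fun s => ∑' p, slope (f p) t s) (𝓝[Ico 0 T \ {t}] t) (𝓝 (∑' p, f' p t)) := by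
    refine tendsto_tsum_of_dominated_convergence hb1 (fun p => ?_) ?_
    · exact hasDerivWithinAt_iff_tendsto_slope.mp (hd p t ht)
    · filter_upwards [hev] with s hs' p
      have h6 : |f p s - f p t| ≤ b p * |s - t| :=
        (convex_Icc 0 T').norm_image_sub_le_of_norm_hasDerivWithin_le (f := f p) (f' := f' p)
          (C := b p) (fun x hx => (hd p x (hsub hx)).mono hsub) (fun x hx => hb2 p x hx)
          ⟨ht.1, h1.le⟩ hs'.1
      rw [slope_def_field, Real.norm_eq_abs, abs_div,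
        div_le_iff₀ (abs_pos.mpr (sub_ne_zero.mpr hs'.2))]
      exact h6
  refine h5.congr' ?_
  filter_upwards [hev] with s hs'
  simp only [slope_def_field]
  rw [tsum_div_const, (hs s (hsub hs'.1)).tsum_sub (hs t ht)]

variable {J : Type} {g : J → ℕ} {κ μ lam Λ M a D₁ : ℝ} {L C ℓ : ℕ → ℝ} {B : ℕ → ℕ → ℝ}
  {D : Ix J → Ix J → ℝ} {c : Ix J → Ix J → Ix J → ℝ}

theorem group_fin (hK : Ker g Λ M L C B c) (n : ℕ) : {b : Ix J | gr g b = n}.Finite := by
  have h1 : {b : Ix J | gr g b = n} ⊆ {Sum.inl n} ∪ Sum.inr '' {j | g j = n} := by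
    rintro (m | j) hb
    · left
      have : m = n := hb
      rw [this]
      rfl
    · right
      exact ⟨j, hb, rfl⟩
  exact ((Set.finite_singleton _).union ((hK.fin n).image _)).subset h1

theorem rpu_bound (hL : ∀ n, 1 ≤ L n) {T T' : ℝ} (hT : T' < T) {u : Ix J → ℝ → ℝ}
    (hu : RpU g L T u) : ∃ K, 0 ≤ K ∧ ∀ t ∈ Icc 0 T', ∀ a, |u a t| ≤ K * (L (gr g a))⁻¹ ^ 4 := by
  obtain ⟨K, hKb⟩ := hu 4 T' hT
  refine ⟨|K|, abs_nonneg K, fun t ht a => ?_⟩
  have h1 := (hKb t ht a).trans (le_abs_self K)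
  have h2 : 0 < L (gr g a) := lt_of_lt_of_le one_pos (hL _)
  rw [inv_pow, ← div_eq_mul_inv, le_div_iff₀ (by positivity), mul_comm]
  exact h1

theorem t_CALC : S_CALC := by
  intro J g κ μ lam Λ M a D₁ L C ℓ B D c hK hs6 hD T u v u' v' hu hv hu' hv' hdu hdv
  have hs := sq65 hs6
  have hL1 : ∀ n, 1 ≤ L n := L_one hs
  have hLp : ∀ n, 0 < L n := fun n => lt_of_lt_of_le one_pos (hL1 n)
  have hM : 0 ≤ M := zero_le_one.trans hs6.M_one
  have hw : Summable (fun a : Ix J => (L (gr g a))⁻¹ ^ 4) := by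
    refine Summable.of_nonneg_of_le (fun a => ?_) (fun a => ?_) (wsum hK hs)
    · have := hLp (gr g a)
      positivity
    · have h1 := hLp (gr g a)
      have h2 : 0 ≤ (L (gr g a))⁻¹ ^ 4 := by positivity
      nlinarith [hL1 (gr g a)]
  have hww : Summable (fun p : Ix J × Ix J => (L (gr g p.1))⁻¹ ^ 4 * (L (gr g p.2))⁻¹ ^ 4) :=
    hw.mul_of_nonneg hw (fun a => by have := hLp (gr g a); positivity)
      (fun a => by have := hLp (gr g a); positivity)
  -- bound of one term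
  have hterm : ∀ (i : Ix J) (p : Ix J × Ix J) (x y K K' : ℝ), 0 ≤ K → 0 ≤ K' →
      |x| ≤ K * (L (gr g p.1))⁻¹ ^ 4 → |y| ≤ K' * (L (gr g p.2))⁻¹ ^ 4 →
      |c i p.1 p.2 * x * y| ≤ M * L (gr g i) * (K * K') *
        ((L (gr g p.1))⁻¹ ^ 4 * (L (gr g p.2))⁻¹ ^ 4) := by
    intro i p x y K K' hK0 hK0' hx hy
    have h1 := size hK hs i p.1 p.2
    have h2 : 0 ≤ (L (gr g p.1))⁻¹ ^ 4 := by have := hLp (gr g p.1); positivity
    have h3 : 0 ≤ (L (gr g p.2))⁻¹ ^ 4 := by have := hLp (gr g p.2); positivity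
    have h4 := hLp (gr g i)
    rw [abs_mul, abs_mul]
    calc |c i p.1 p.2| * |x| * |y|
        ≤ (M * L (gr g i)) * (K * (L (gr g p.1))⁻¹ ^ 4) * (K' * (L (gr g p.2))⁻¹ ^ 4) := by
          apply mul_le_mul _ hy (abs_nonneg _) (by positivity)
          exact mul_le_mul h1 hx (abs_nonneg _) (by positivity)
      _ = _ := by ring
  -- summability at a fixed time
  have hsumm : ∀ (x y : Ix J → ℝ → ℝ), RpU g L T x → RpU g L T y → ∀ i, ∀ t ∈ Ico 0 T,
      Summable (fun p : Ix J × Ix J => c i p.1 p.2 * x p.1 t * y p.2 t) := by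
    intro x y hx hy i t ht
    obtain ⟨K, hK0, hKb⟩ := rpu_bound hL1 ht.2 hx
    obtain ⟨K', hK0', hKb'⟩ := rpu_bound hL1 ht.2 hy
    refine Summable.of_norm_bounded (hww.mul_left (M * L (gr g i) * (K * K'))) fun p => ?_
    exact hterm i p _ _ K K' hK0 hK0' (hKb t ⟨ht.1, le_rfl⟩ p.1) (hKb' t ⟨ht.1, le_rfl⟩ p.2)
  refine ⟨?_, ?_⟩
  · intro i t ht
    have h1 := series_deriv (T := T)
      (fun (p : Ix J × Ix J) s => c i p.1 p.2 * u p.1 s * v p.2 s)
      (fun (p : Ix J × Ix J) s => c i p.1 p.2 * u' p.1 s * v p.2 s +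
        c i p.1 p.2 * u p.1 s * v' p.2 s) (by
        intro p s hs
        exact ((hdu p.1 s hs).const_mul (c i p.1 p.2)).mul (hdv p.2 s hs))
      (fun s hs => hsumm u v hu hv i s hs) (by
        intro T' hT'
        obtain ⟨K1, hK1, hb1⟩ := rpu_bound hL1 hT' hu
        obtain ⟨K2, hK2, hb2⟩ := rpu_bound hL1 hT' hv
        obtain ⟨K3, hK3, hb3⟩ := rpu_bound hL1 hT' hu'
        obtain ⟨K4, hK4, hb4⟩ := rpu_bound hL1 hT' hv'
        refine ⟨fun p => M * L (gr g i) * (K3 * K2) *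
          ((L (gr g p.1))⁻¹ ^ 4 * (L (gr g p.2))⁻¹ ^ 4) + M * L (gr g i) * (K1 * K4) *
          ((L (gr g p.1))⁻¹ ^ 4 * (L (gr g p.2))⁻¹ ^ 4),
          (hww.mul_left _).add (hww.mul_left _), fun p s hs => ?_⟩
        refine (abs_add_le _ _).trans (add_le_add ?_ ?_)
        · exact hterm i p _ _ K3 K2 hK3 hK2 (hb3 s hs p.1) (hb2 s hs p.2)
        · exact hterm i p _ _ K1 K4 hK1 hK4 (hb1 s hs p.1) (hb4 s hs p.2)) t ht
    rw [(hsumm u' v hu' hv i t ht).tsum_add (hsumm u v' hu hv' i t ht)] at h1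
    exact h1
  · intro i t ht
    have hfin : Summable (fun b : Ix J => |D i b|) := by
      refine summable_of_finite_support ((group_fin hK (gr g i)).subset ?_)
      intro b hb
      have h2 : D i b ≠ 0 := by
        intro h
        apply hb
        simp [h]
      exact (hD.blk i b h2).symm
    have hbnd : ∀ (x : Ix J → ℝ → ℝ), RpU g L T x → ∀ T' < T, ∃ K, ∀ s ∈ Icc 0 T', ∀ b,
        |D i b * x b s| ≤ |D i b| * K := by
      intro x hx T' hT'
      obtain ⟨K, hKb⟩ := hx 0 T' hT'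
      refine ⟨K, fun s hs b => ?_⟩
      have h1 := hKb s hs b
      rw [pow_zero, one_mul] at h1
      rw [abs_mul]
      exact mul_le_mul_of_nonneg_left h1 (abs_nonneg _)
    exact series_deriv (T := T) (fun (b : Ix J) s => D i b * u b s) (fun b s => D i b * u' b s)
      (fun b s hs => (hdu b s hs).const_mul (D i b)) (fun s hs => by
        obtain ⟨K, hKb⟩ := hbnd u hu s hs.2
        exact Summable.of_norm_bounded (hfin.mul_right K) fun b => hKb s ⟨hs.1, le_rfl⟩ b) (by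
        intro T' hT'
        obtain ⟨K, hKb⟩ := hbnd u' hu' T' hT'
        exact ⟨fun b => |D i b| * K, hfin.mul_right K, fun b s hs => hKb s hs b⟩) t ht

end Pool.Agent.Y297.SK
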